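import Mathlib

/-! Exact functors preserve boundedness in the derived category. -/

set_option autoImplicit false

open CategoryTheory Limits

namespace Pool.Agent.W2helper19.BD

universe v₁ v₂ u₁ u₂ w₁ w₂

variable {C : Type u₁} [Category.{v₁} C] [Abelian C] [HasDerivedCategory.{w₁} C]
  {D : Type u₂} [Category.{v₂} D] [Abelian D] [HasDerivedCategory.{w₂} D]
  (F : C ⥤ D) [F.Additive] [PreservesFiniteLimits F] [PreservesFiniteColimits F]

theorem isGE_map (X : DerivedCategory C) (n : ℤ) (hX : X.IsGE n) :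
    (F.mapDerivedCategory.obj X).IsGE n := by
  obtain ⟨K, hK, ⟨e⟩⟩ := X.exists_iso_Q_obj_of_isGE n
  have : CochainComplex.IsStrictlyGE ((F.mapHomologicalComplex (ComplexShape.up ℤ)).obj K) n := by
    rw [CochainComplex.isStrictlyGE_iff] at hK ⊢
    exact fun i hi => F.map_isZero (hK i hi)
  have e2 : DerivedCategory.Q.obj ((F.mapHomologicalComplex _).obj K) ≅ F.mapDerivedCategory.obj X :=
    (F.mapDerivedCategoryFactors.app K).symm ≪≫ F.mapDerivedCategory.mapIso e.symm
  exact DerivedCategory.TStructure.t.isGE_of_iso e2 n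

theorem isLE_map (X : DerivedCategory C) (n : ℤ) (hX : X.IsLE n) :
    (F.mapDerivedCategory.obj X).IsLE n := by
  obtain ⟨K, hK, ⟨e⟩⟩ := X.exists_iso_Q_obj_of_isLE n
  have : CochainComplex.IsStrictlyLE ((F.mapHomologicalComplex (ComplexShape.up ℤ)).obj K) n := by
    rw [CochainComplex.isStrictlyLE_iff] at hK ⊢
    exact fun i hi => F.map_isZero (hK i hi)
  have e2 : DerivedCategory.Q.obj ((F.mapHomologicalComplex _).obj K) ≅ F.mapDerivedCategory.obj X :=
    (F.mapDerivedCategoryFactors.app K).symm ≪≫ F.mapDerivedCategory.mapIso e.symm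
  exact DerivedCategory.TStructure.t.isLE_of_iso e2 n

theorem bounded_map (X : DerivedCategory C) (hX : DerivedCategory.TStructure.t.bounded X) :
    DerivedCategory.TStructure.t.bounded (F.mapDerivedCategory.obj X) := by
  obtain ⟨⟨a, ha⟩, ⟨b, hb⟩⟩ := hX
  exact ⟨⟨a, isGE_map F X a ha⟩, ⟨b, isLE_map F X b hb⟩⟩

end Pool.Agent.W2helper19.BD
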