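import Pool.Agent.W2helper43.BD.Stm

/-! Project BD, piece CORN. -/

set_option autoImplicit false

namespace Pool.Agent.W2helper19.BD

open Pool.Agent.W2helper43.BD

theorem p_corn : P_CORN := by
  intro A R _ _ f e hinj hmul hadd h1 hsur b hb hfb
  have h0 : f 0 = 0 := by
    have := hadd 0 0
    rw [add_zero] at this
    exact left_eq_add.mp this
  let φ : hb.Corner →+* hfb.Corner :=
    { toFun := fun x => ⟨f x.1, (Subsemigroup.mem_corner_iff hfb).2
        ⟨by rw [hmul, ((Subsemigroup.mem_corner_iff hb).1 x.2).1],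
          by rw [hmul, ((Subsemigroup.mem_corner_iff hb).1 x.2).2]⟩⟩
      map_one' := Subtype.ext rfl
      map_mul' := fun x y => Subtype.ext (hmul x.1 y.1).symm
      map_zero' := Subtype.ext h0
      map_add' := fun x y => Subtype.ext (hadd x.1 y.1) }
  refine ⟨RingEquiv.ofBijective φ ⟨?_, ?_⟩⟩
  · intro x y hxy
    exact Subtype.ext (hinj (congrArg Subtype.val hxy))
  · intro y
    obtain ⟨y1, y2⟩ := (Subsemigroup.mem_corner_iff hfb).1 y.2
    have e1 : e * f b = f b := by rw [← h1, hmul, one_mul]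
    have e2 : f b * e = f b := by rw [← h1, hmul, mul_one]
    have e3 : e * y.1 * e = y.1 := by
      calc e * y.1 * e = e * (f b * y.1 * f b) * e := by rw [y1, y2]
        _ = (e * f b) * y.1 * (f b * e) := by noncomm_ring
        _ = y.1 := by rw [e1, e2, y1, y2]
    obtain ⟨a, ha⟩ := hsur y.1
    rw [e3] at ha
    refine ⟨⟨b * a * b, a, rfl⟩, Subtype.ext ?_⟩
    show f (b * a * b) = y.1
    rw [← hmul, ← hmul, ← ha, y1, y2]

end Pool.Agent.W2helper19.BD
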